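import Pool.Agent.V8.Defs
import Pool.Agent.V7.Num.Asym
import Pool.Agent.V7.ST.Bb

/-!
# V8, NUM: the weights `bJ`
-/

set_option autoImplicit false

namespace Pool.Agent.V8

open Finset Pool.Agent.H51.TB Pool.Agent.V7 Pool.Agent.V7.ST

variable {K : ℕ}

private theorem bJ_vand (B : Finset (Fin K → ℕ)) (c k j n : ℕ) (h : j * c + K ≤ n) :
    bJ B c k j (n + c) = ∑ l ∈ range (k + 1), c.multichoose l * bJ B c (k - l) j n := by
  have hn : n + c - K = (n - K) + c := by omega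
  unfold bJ
  rw [hn]
  have h1 : ∀ b ∈ B.filter (fun b => ∑ i, b i ≤ k), bb c (k - ∑ i, b i) j (n - K + c) =
      ∑ l ∈ range (k + 1), if l + ∑ i, b i ≤ k then
        c.multichoose l * bb c (k - l - ∑ i, b i) j (n - K) else 0 := by
    intro b hb
    rw [mem_filter] at hb
    rw [bb_vand c (k - ∑ i, b i) j (n - K) (by omega)]
    have h2 : range (k - ∑ i, b i + 1) = (range (k + 1)).filter (fun l => l + ∑ i, b i ≤ k) := by
      ext l
      rw [mem_filter, mem_range, mem_range]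
      omega
    rw [h2, sum_filter]
    refine sum_congr rfl fun l _ => ?_
    split_ifs with h3
    · rw [Nat.sub_right_comm]
    · rfl
  rw [sum_congr rfl h1, sum_comm]
  refine sum_congr rfl fun l hl => ?_
  rw [mem_range] at hl
  rw [mul_sum, ← sum_filter, filter_filter]
  refine sum_congr ?_ fun b _ => rfl
  ext b
  rw [mem_filter, mem_filter]
  constructor
  · rintro ⟨h2, h3, h4⟩
    exact ⟨h2, by omega⟩
  · rintro ⟨h2, h3⟩
    exact ⟨h2, by omega, by omega⟩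

private theorem bb_add' (c k j n : ℕ) (h : j * c ≤ n) :
    bb c k j (n + c) = bb c k j n + bb c k (j + 1) (n + c) := by
  have h1 : bb c k j n ≤ bb c k j (n + c) := by
    rw [bb_vand c k j n h, sum_range_succ']
    simp
  show bb c k j (n + c) = bb c k j n + (bb c k j (n + c) - bb c k j (n + c - c))
  rw [Nat.add_sub_cancel]
  omega

private theorem bJ_add (B : Finset (Fin K → ℕ)) (c k j n : ℕ) (h : j * c + K ≤ n) :
    bJ B c k j (n + c) = bJ B c k j n + bJ B c k (j + 1) (n + c) := by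
  have hn : n + c - K = (n - K) + c := by omega
  unfold bJ
  rw [hn, ← sum_add_distrib]
  exact sum_congr rfl fun b _ => bb_add' c _ j (n - K) (by omega)

private theorem bJ_zero (B : Finset (Fin K → ℕ)) (c k j n : ℕ) (h : j * c + K ≤ n) (hk : k < j) :
    bJ B c k j n = 0 :=
  sum_eq_zero fun b _ => bb_zero c _ j (n - K) (by omega) (by omega)

/-- Split off the exponent `0`. -/
private theorem bJ_split (B : Finset (Fin K → ℕ)) (hB : Dn B) (c k j n : ℕ) :
    bJ B c k j n = bb c k j (n - K) +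
      ∑ b ∈ B.filter (fun b => ∑ i, b i ≤ k ∧ b ≠ fun _ => 0),
        bb c (k - ∑ i, b i) j (n - K) := by
  unfold bJ
  have h0 : (fun _ => 0 : Fin K → ℕ) ∈ B.filter (fun b => ∑ i, b i ≤ k) := by
    rw [mem_filter]
    exact ⟨hB.zero, by simp⟩
  rw [← add_sum_erase _ _ h0]
  congr 1
  · simp
  · refine sum_congr ?_ fun b _ => rfl
    ext b
    rw [mem_erase, mem_filter, mem_filter]
    tauto

private theorem sum_pos_of_ne {b : Fin K → ℕ} (h : b ≠ fun _ => 0) : 1 ≤ ∑ i, b i := by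
  by_contra h1
  refine h (funext fun i => ?_)
  have h2 : b i ≤ ∑ i, b i := single_le_sum (fun _ _ => Nat.zero_le _) (mem_univ i)
  omega

private theorem bJ_self (B : Finset (Fin K → ℕ)) (hB : Dn B) (c k n : ℕ) (h : k * c + K ≤ n) :
    bJ B c k k n = c ^ k := by
  rw [bJ_split B hB, bb_self c k (n - K) (by omega), sum_eq_zero, add_zero]
  intro b hb
  rw [mem_filter] at hb
  have h1 := sum_pos_of_ne hb.2.2
  exact bb_zero c _ k (n - K) (by omega) (by omega)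

private theorem bJ_pos (B : Finset (Fin K → ℕ)) (hB : Dn B) (c k j n : ℕ) (hc : 1 ≤ c)
    (hj : j ≤ k) (h : j * c + K < n) : 1 ≤ bJ B c k j n := by
  rw [bJ_split B hB]
  have h1 := bb_pos (c := c) (j := j) (n := n - K) hc k hj (by omega)
  omega

/-- An upper bound for `bb`. -/
private theorem bb_le_pow (c k j : ℕ) (hj : j ≤ k) : ∃ C : ℝ, 0 < C ∧ ∀ n : ℕ, 1 ≤ n →
    j * c ≤ n → (bb c k j n : ℝ) ≤ C * (n : ℝ) ^ (k - j) := by
  obtain ⟨C, hC, h⟩ := bb_asym c k j hj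
  refine ⟨(c : ℝ) ^ j / ((k - j).factorial : ℝ) + C, by positivity, fun n hn hjn => ?_⟩
  have h1 := h n hn hjn
  have hn1 : (1 : ℝ) ≤ (n : ℝ) := by exact_mod_cast hn
  have h2 : C / n * (n : ℝ) ^ (k - j) ≤ C * (n : ℝ) ^ (k - j) := by
    refine mul_le_mul_of_nonneg_right (div_le_self hC.le hn1) (by positivity)
  have h3 := (abs_le.1 h1).2
  calc (bb c k j n : ℝ) ≤ (c : ℝ) ^ j / ((k - j).factorial : ℝ) * (n : ℝ) ^ (k - j) +
        C / n * (n : ℝ) ^ (k - j) := by linarith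
    _ ≤ _ := by rw [add_mul]; linarith

/-- `|(n - K) ^ d - n ^ d| ≤ d K n ^ (d - 1)`. -/
private theorem pow_shift (K d : ℕ) {n : ℕ} (hn : K ≤ n) (hn1 : 1 ≤ n) :
    |(((n - K : ℕ) : ℝ)) ^ d - (n : ℝ) ^ d| ≤ (d * K : ℝ) / n * (n : ℝ) ^ d := by
  have hn0 : (0 : ℝ) < (n : ℝ) := by exact_mod_cast hn1
  rw [Nat.cast_sub hn]
  have hK : (K : ℝ) ≤ (n : ℝ) := by exact_mod_cast hn
  induction d with
  | zero => simp
  | succ d ih =>
    have h1 : ((n : ℝ) - K) ^ (d + 1) - (n : ℝ) ^ (d + 1) =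
        ((n : ℝ) - K) * (((n : ℝ) - K) ^ d - (n : ℝ) ^ d) - K * (n : ℝ) ^ d := by ring
    rw [h1]
    have h2 : |((n : ℝ) - K) * (((n : ℝ) - K) ^ d - (n : ℝ) ^ d)| ≤
        (n : ℝ) * ((d * K : ℝ) / n * (n : ℝ) ^ d) := by
      rw [abs_mul, abs_of_nonneg (by linarith : (0 : ℝ) ≤ (n : ℝ) - K)]
      have hK0 : (0 : ℝ) ≤ (K : ℝ) := Nat.cast_nonneg K
      exact mul_le_mul (by linarith) ih (abs_nonneg _) hn0.le
    have h3 : |(K : ℝ) * (n : ℝ) ^ d| = K * (n : ℝ) ^ d := abs_of_nonneg (by positivity)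
    calc |((n : ℝ) - K) * (((n : ℝ) - K) ^ d - (n : ℝ) ^ d) - K * (n : ℝ) ^ d| ≤
          |((n : ℝ) - K) * (((n : ℝ) - K) ^ d - (n : ℝ) ^ d)| + |(K : ℝ) * (n : ℝ) ^ d| :=
          abs_sub _ _
      _ ≤ (n : ℝ) * ((d * K : ℝ) / n * (n : ℝ) ^ d) + K * (n : ℝ) ^ d := by
          rw [h3]; linarith
      _ = (((d + 1 : ℕ) : ℝ) * K) / n * (n : ℝ) ^ (d + 1) := by
          push_cast
          field_simp
          try ring

private theorem bJ_asym (B : Finset (Fin K → ℕ)) (hB : Dn B) (c k j : ℕ) (hj : j ≤ k) :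
    ∃ C : ℝ, 0 < C ∧ ∀ n : ℕ, 1 ≤ n → j * c + K ≤ n →
    |(bJ B c k j n : ℝ) - (c : ℝ) ^ j / ((k - j).factorial : ℝ) * (n : ℝ) ^ (k - j)| ≤
      C / n * (n : ℝ) ^ (k - j) := by
  obtain ⟨C₁, hC₁, h₁⟩ := bb_asym c k j hj
  -- the other exponents
  have h₂ : ∀ b ∈ B.filter (fun b => ∑ i, b i ≤ k ∧ b ≠ fun _ => 0), ∃ C : ℝ, 0 < C ∧
      ∀ n : ℕ, K < n → j * c + K ≤ n →
      (bb c (k - ∑ i, b i) j (n - K) : ℝ) ≤ C / n * (n : ℝ) ^ (k - j) := by
    intro b hb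
    rw [mem_filter] at hb
    have hb1 := sum_pos_of_ne hb.2.2
    rcases Nat.lt_or_ge (k - ∑ i, b i) j with h | h
    · refine ⟨1, one_pos, fun n hn hjn => ?_⟩
      rw [bb_zero c _ j (n - K) (by omega) h, Nat.cast_zero]
      positivity
    · obtain ⟨C, hC, h'⟩ := bb_le_pow c (k - ∑ i, b i) j h
      refine ⟨C, hC, fun n hn hjn => (h' (n - K) (by omega) (by omega)).trans ?_⟩
      have hn1 : (1 : ℝ) ≤ (n : ℝ) := by exact_mod_cast (by omega : 1 ≤ n)
      have hn0 : (0 : ℝ) < (n : ℝ) := by linarith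
      have h3 : (((n - K : ℕ) : ℝ)) ^ (k - ∑ i, b i - j) ≤ (n : ℝ) ^ (k - j - 1) := by
        calc (((n - K : ℕ) : ℝ)) ^ (k - ∑ i, b i - j) ≤ (n : ℝ) ^ (k - ∑ i, b i - j) := by
              refine pow_le_pow_left₀ (Nat.cast_nonneg _) ?_ _
              exact_mod_cast Nat.sub_le n K
          _ ≤ (n : ℝ) ^ (k - j - 1) := pow_le_pow_right₀ hn1 (by omega)
      have h4 : (n : ℝ) ^ (k - j) = n * (n : ℝ) ^ (k - j - 1) := by
        rw [← pow_succ', show k - j - 1 + 1 = k - j by omega]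
      rw [h4]
      calc C * (((n - K : ℕ) : ℝ)) ^ (k - ∑ i, b i - j) ≤ C * (n : ℝ) ^ (k - j - 1) :=
            mul_le_mul_of_nonneg_left h3 hC.le
        _ = C / n * (n * (n : ℝ) ^ (k - j - 1)) := by field_simp
  choose! C₂ hC₂ h₂ using h₂
  set A := (c : ℝ) ^ j / ((k - j).factorial : ℝ) with hA
  have hA0 : 0 ≤ A := by positivity
  set S := B.filter (fun b => ∑ i, b i ≤ k ∧ b ≠ fun _ => 0) with hS
  have hC2 : 0 ≤ ∑ b ∈ S, C₂ b := sum_nonneg fun b hb => (hC₂ b hb).le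
  have hK1 : (0 : ℝ) ≤ (K : ℝ) := Nat.cast_nonneg K
  -- the constant
  set D := C₁ * (K + 1) + A * ((k - j : ℕ) * K) + ∑ b ∈ S, C₂ b +
    |(bJ B c k j K : ℝ) - A * (K : ℝ) ^ (k - j)| * (K + 1) + 1 with hD
  have hD0 : 0 < D := by
    have h5 : 0 ≤ A * (((k - j : ℕ) : ℝ) * K) := by positivity
    have h6 : 0 ≤ |(bJ B c k j K : ℝ) - A * (K : ℝ) ^ (k - j)| * (K + 1) := by positivity
    have h7 : 0 < C₁ * ((K : ℝ) + 1) := by positivity
    rw [hD]
    linarith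
  refine ⟨D, hD0, fun n hn hjn => ?_⟩
  have hn1 : (1 : ℝ) ≤ (n : ℝ) := by exact_mod_cast hn
  have hn0 : (0 : ℝ) < (n : ℝ) := by linarith
  have hP : 0 ≤ (n : ℝ) ^ (k - j) / n := by positivity
  have hPC : ∀ C : ℝ, C / n * (n : ℝ) ^ (k - j) = C * ((n : ℝ) ^ (k - j) / n) := by
    intro C
    ring
  rcases Nat.lt_or_ge K n with hKn | hKn
  · -- the general case
    rw [bJ_split B hB]
    push_cast
    rw [← hS]
    have h3 : |(bb c k j (n - K) : ℝ) - A * (n : ℝ) ^ (k - j)| ≤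
        (C₁ * (K + 1) + A * (((k - j : ℕ) : ℝ) * K)) * ((n : ℝ) ^ (k - j) / n) := by
      have h4 := h₁ (n - K) (by omega) (by omega)
      have h5 := pow_shift K (k - j) hKn.le hn
      have h6 : (bb c k j (n - K) : ℝ) - A * (n : ℝ) ^ (k - j) =
          ((bb c k j (n - K) : ℝ) - A * (((n - K : ℕ) : ℝ)) ^ (k - j)) +
            A * ((((n - K : ℕ) : ℝ)) ^ (k - j) - (n : ℝ) ^ (k - j)) := by ring
      have h7 : C₁ / ((n - K : ℕ) : ℝ) * (((n - K : ℕ) : ℝ)) ^ (k - j) ≤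
          C₁ * (K + 1) * ((n : ℝ) ^ (k - j) / n) := by
        have hm : (1 : ℝ) ≤ ((n - K : ℕ) : ℝ) := by exact_mod_cast (by omega : 1 ≤ n - K)
        have h8 : (((n - K : ℕ) : ℝ)) ^ (k - j) ≤ (n : ℝ) ^ (k - j) := by
          refine pow_le_pow_left₀ (Nat.cast_nonneg _) ?_ _
          exact_mod_cast Nat.sub_le n K
        have h9 : 1 / ((n - K : ℕ) : ℝ) ≤ (K + 1) / n := by
          rw [div_le_div_iff₀ (by linarith) hn0]
          have h10 : (n : ℝ) = ((n - K : ℕ) : ℝ) + K := by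
            rw [Nat.cast_sub hKn.le]
            ring
          nlinarith
        calc C₁ / ((n - K : ℕ) : ℝ) * (((n - K : ℕ) : ℝ)) ^ (k - j) =
              C₁ * (1 / ((n - K : ℕ) : ℝ)) * (((n - K : ℕ) : ℝ)) ^ (k - j) := by ring
          _ ≤ C₁ * ((K + 1) / n) * (n : ℝ) ^ (k - j) := by
              refine mul_le_mul (mul_le_mul_of_nonneg_left h9 hC₁.le) h8 (by positivity)
                (by positivity)
          _ = C₁ * (K + 1) * ((n : ℝ) ^ (k - j) / n) := by ring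
      rw [h6]
      calc |((bb c k j (n - K) : ℝ) - A * (((n - K : ℕ) : ℝ)) ^ (k - j)) +
            A * ((((n - K : ℕ) : ℝ)) ^ (k - j) - (n : ℝ) ^ (k - j))| ≤
            |(bb c k j (n - K) : ℝ) - A * (((n - K : ℕ) : ℝ)) ^ (k - j)| +
            |A * ((((n - K : ℕ) : ℝ)) ^ (k - j) - (n : ℝ) ^ (k - j))| := abs_add_le _ _
        _ ≤ C₁ * (K + 1) * ((n : ℝ) ^ (k - j) / n) +
            A * ((((k - j : ℕ) : ℝ) * K) / n * (n : ℝ) ^ (k - j)) := by
            refine add_le_add (h4.trans h7) ?_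
            rw [abs_mul, abs_of_nonneg hA0]
            exact mul_le_mul_of_nonneg_left h5 hA0
        _ = _ := by ring
    have h4 : |∑ b ∈ S, (bb c (k - ∑ i, b i) j (n - K) : ℝ)| ≤
        (∑ b ∈ S, C₂ b) * ((n : ℝ) ^ (k - j) / n) := by
      rw [abs_of_nonneg (sum_nonneg fun b _ => Nat.cast_nonneg _), sum_mul]
      refine sum_le_sum fun b hb => ?_
      rw [← hPC]
      exact h₂ b hb n hKn hjn
    have h5 : (bb c k j (n - K) : ℝ) + ∑ b ∈ S, (bb c (k - ∑ i, b i) j (n - K) : ℝ) -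
        A * (n : ℝ) ^ (k - j) = ((bb c k j (n - K) : ℝ) - A * (n : ℝ) ^ (k - j)) +
          ∑ b ∈ S, (bb c (k - ∑ i, b i) j (n - K) : ℝ) := by ring
    rw [h5]
    refine (abs_add_le _ _).trans ((add_le_add h3 h4).trans ?_)
    rw [hPC, ← add_mul]
    refine mul_le_mul_of_nonneg_right ?_ hP
    have h6 : 0 ≤ |(bJ B c k j K : ℝ) - A * (K : ℝ) ^ (k - j)| * (K + 1) := by positivity
    rw [hD]
    linarith
  · -- `n = K`
    obtain rfl : n = K := by omega
    set X := |(bJ B c k j n : ℝ) - A * (n : ℝ) ^ (k - j)| with hX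
    have hX0 : 0 ≤ X := abs_nonneg _
    have h3 : X * n ≤ D := by
      have h5 : 0 ≤ A * (((k - j : ℕ) : ℝ) * n) := by positivity
      have h7 : 0 < C₁ * ((n : ℝ) + 1) := by positivity
      rw [hD]
      nlinarith
    calc X ≤ D / n * 1 := by
          rw [mul_one, le_div_iff₀ hn0]
          exact h3
      _ ≤ D / n * (n : ℝ) ^ (k - j) :=
          mul_le_mul_of_nonneg_left (one_le_pow₀ hn1) (by positivity)

/-- W1. -/
theorem isW_bJ (B : Finset (Fin K → ℕ)) (hB : Dn B) (c : ℕ) (hc : 1 ≤ c) : IsW c K (bJ B c) where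
  vand := bJ_vand B c
  add := bJ_add B c
  zero := bJ_zero B c
  self := bJ_self B hB c
  pos := fun k j n _ hj h => bJ_pos B hB c k j n hc hj h
  asym := bJ_asym B hB c

end Pool.Agent.V8
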