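import Pool.Agent.V8.Defs

/-!
# V8, NUM-B1 for general weights: one of the numbers is determined by the virtual dimension

As `Pool.Agent.V7.solve`, with weights `w k j n` which satisfy `IsW c K w`.
-/

set_option autoImplicit false

namespace Pool.Agent.V8

open Finset Pool.Agent.H51.TB Pool.Agent.V7 Pool.Agent.V7.ST

variable {K : ℕ}

/-- the sum over the kinds of the level `j` -/
private theorem sum_kds (M j : ℕ) (f : Kd → ℝ) : ∑ τ ∈ kds M j, f τ =
    ∑ μ ∈ Icc 1 M, ∑ I ∈ (range j).powerset, f (.ord μ I) +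
      ∑ i ∈ range j, ∑ I ∈ (range j).powerset, if I ⊆ Ico (i + 1) j then f (.sw i I) else 0 := by
  unfold kds
  rw [sum_union, sum_image, sum_image, sum_filter, sum_product, sum_product]
  · rintro ⟨a, b⟩ _ ⟨a', b'⟩ _ h
    simp only [Kd.sw.injEq] at h
    exact Prod.ext h.1 h.2
  · rintro ⟨a, b⟩ _ ⟨a', b'⟩ _ h
    simp only [Kd.ord.injEq] at h
    exact Prod.ext h.1 h.2
  · rw [disjoint_left]
    intro τ h1 h2
    rw [mem_image] at h1 h2
    obtain ⟨x, _, rfl⟩ := h1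
    obtain ⟨y, _, h⟩ := h2
    exact Kd.noConfusion h

/-- Vandermonde's identity for the nominal densities -/
private theorem vand (M c l : ℕ) (hl : l + 1 ≤ M) :
    ∑ I ∈ (range l).powerset, nom M c l I * ((c : ℝ) ^ I.card / ((M - 1 - I.card).factorial : ℝ)) =
      (c : ℝ) ^ l / ((2 * M - 1 - l).factorial : ℝ) := by
  have h1 : ∑ I ∈ (range l).powerset, nom M c l I * ((c : ℝ) ^ I.card / ((M - 1 - I.card).factorial : ℝ)) =
      ∑ m ∈ range (l + 1), l.choose m • ((c : ℝ) ^ (l - m) / (((2 * M - 1).choose M : ℝ) * ((M + m - l).factorial : ℝ)) *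
        ((c : ℝ) ^ m / ((M - 1 - m).factorial : ℝ))) := by
    have h2 := Finset.sum_powerset_apply_card (fun m => (c : ℝ) ^ (l - m) / (((2 * M - 1).choose M : ℝ) * ((M + m - l).factorial : ℝ)) *
        ((c : ℝ) ^ m / ((M - 1 - m).factorial : ℝ))) (x := range l)
    rw [card_range] at h2
    exact h2
  rw [h1]
  have hC : ((2 * M - 1).choose M : ℝ) ≠ 0 := by
    have := Nat.choose_pos (n := 2 * M - 1) (k := M) (by omega)
    exact_mod_cast this.ne'
  have h3 : ∀ m ∈ range (l + 1), l.choose m • ((c : ℝ) ^ (l - m) / (((2 * M - 1).choose M : ℝ) * ((M + m - l).factorial : ℝ)) *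
        ((c : ℝ) ^ m / ((M - 1 - m).factorial : ℝ))) =
      (c : ℝ) ^ l / (((2 * M - 1).choose M : ℝ) * ((2 * M - 1 - l).factorial : ℝ)) *
        ((l.choose m * (2 * M - 1 - l).choose (M - 1 - m) : ℕ) : ℝ) := by
    intro m hm
    rw [mem_range] at hm
    have h4 : (2 * M - 1 - l).choose (M - 1 - m) * (M - 1 - m).factorial * (M + m - l).factorial = (2 * M - 1 - l).factorial := by
      have h5 := Nat.choose_mul_factorial_mul_factorial (n := 2 * M - 1 - l) (k := M - 1 - m) (by omega)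
      rwa [show 2 * M - 1 - l - (M - 1 - m) = M + m - l by omega] at h5
    have h6 : ((2 * M - 1 - l).factorial : ℝ) = ((2 * M - 1 - l).choose (M - 1 - m) : ℝ) * ((M - 1 - m).factorial : ℝ) * ((M + m - l).factorial : ℝ) := by
      rw [← h4]
      push_cast
      ring
    have h7 : (c : ℝ) ^ l = (c : ℝ) ^ (l - m) * (c : ℝ) ^ m := by
      rw [← pow_add]
      congr 1
      omega
    have h8 : ((M - 1 - m).factorial : ℝ) ≠ 0 := by positivity
    have h9 : ((M + m - l).factorial : ℝ) ≠ 0 := by positivity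
    have h10 : ((2 * M - 1 - l).choose (M - 1 - m) : ℝ) ≠ 0 := by
      have := Nat.choose_pos (n := 2 * M - 1 - l) (k := M - 1 - m) (by omega)
      exact_mod_cast this.ne'
    rw [nsmul_eq_mul, h6, h7]
    push_cast
    field_simp
  rw [sum_congr rfl h3, ← mul_sum]
  have h4 : ∑ m ∈ range (l + 1), l.choose m * (2 * M - 1 - l).choose (M - 1 - m) = (2 * M - 1).choose M := by
    have h5 := Nat.add_choose_eq l (2 * M - 1 - l) (M - 1)
    rw [Finset.Nat.sum_antidiagonal_eq_sum_range_succ (fun a b => l.choose a * (2 * M - 1 - l).choose b) (M - 1),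
      show l + (2 * M - 1 - l) = 2 * M - 1 by omega, show (M - 1).succ = M by omega] at h5
    rw [← Nat.choose_symm_of_eq_add (n := 2 * M - 1) (a := M - 1) (b := M) (by omega), h5]
    refine sum_subset (fun x hx => ?_) fun x _ hx => ?_
    · rw [mem_range] at hx ⊢
      omega
    · rw [mem_range, not_lt] at hx
      rw [Nat.choose_eq_zero_of_lt (by omega), zero_mul]
  rw [← Nat.cast_sum, h4]
  field_simp

/-- uniform constants -/
private theorem unif {c : ℕ} {w : ℕ → ℕ → ℕ → ℕ} (hw : IsW c K w) (k : ℕ) : ∃ Z : ℝ, 0 < Z ∧ ∀ j ≤ k, ∀ n : ℕ, 1 ≤ n → j * c + K ≤ n →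
    |(w k j n : ℝ) - (c : ℝ) ^ j / ((k - j).factorial : ℝ) * (n : ℝ) ^ (k - j)| ≤ Z / n * (n : ℝ) ^ (k - j) := by
  have h : ∀ m : ℕ, ∃ Z : ℝ, 0 < Z ∧ ∀ j ≤ k, j < m → ∀ n : ℕ, 1 ≤ n → j * c + K ≤ n →
      |(w k j n : ℝ) - (c : ℝ) ^ j / ((k - j).factorial : ℝ) * (n : ℝ) ^ (k - j)| ≤ Z / n * (n : ℝ) ^ (k - j) := by
    intro m
    induction m with
    | zero => exact ⟨1, one_pos, fun j _ hj => absurd hj (Nat.not_lt_zero _)⟩
    | succ m ih =>
      obtain ⟨Z, hK, ih⟩ := ih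
      by_cases hm : m ≤ k
      · obtain ⟨Z', hK', h'⟩ := hw.asym k m hm
        refine ⟨Z + Z', by positivity, fun j hj hjm n hn hjn => ?_⟩
        rcases (Nat.lt_succ_iff.1 hjm).lt_or_eq with h1 | h1
        · refine (ih j hj h1 n hn hjn).trans ?_
          gcongr
          linarith
        · subst h1
          refine (h' n hn hjn).trans ?_
          gcongr
          linarith
      · refine ⟨Z, hK, fun j hj hjm n hn hjn => ih j hj (by omega) n hn hjn⟩
  obtain ⟨Z, hK, h⟩ := h (k + 1)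
  exact ⟨Z, hK, fun j hj => h j hj (by omega)⟩

/-- upper bound -/
private theorem w_up {c : ℕ} {w : ℕ → ℕ → ℕ → ℕ} (hw : IsW c K w) (k : ℕ) : ∃ Z : ℝ, 0 < Z ∧ ∀ j, ∀ n : ℕ, 1 ≤ n → j * c + K ≤ n →
    (w k j n : ℝ) * (n : ℝ) ^ j ≤ Z * (n : ℝ) ^ k := by
  obtain ⟨Z, hK, h⟩ := unif hw k
  refine ⟨((c : ℝ) + 1) ^ k + Z, by positivity, fun j n hn hj => ?_⟩
  have hn1 : (1 : ℝ) ≤ n := by exact_mod_cast hn
  rcases Nat.lt_or_ge k j with hkj | hkj
  · rw [hw.zero k j n hj hkj, Nat.cast_zero, zero_mul]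
    positivity
  have h1 := (abs_le.1 (h j hkj n hn hj)).2
  have h2 : (c : ℝ) ^ j / ((k - j).factorial : ℝ) ≤ ((c : ℝ) + 1) ^ k := by
    refine (div_le_self (by positivity) (by exact_mod_cast Nat.factorial_pos _)).trans ?_
    calc (c : ℝ) ^ j ≤ ((c : ℝ) + 1) ^ j := by gcongr; linarith
      _ ≤ ((c : ℝ) + 1) ^ k := pow_le_pow_right₀ (by linarith [(Nat.cast_nonneg c : (0 : ℝ) ≤ c)]) hkj
  have h3 : Z / n ≤ Z := div_le_self hK.le hn1
  have h4 : (w k j n : ℝ) ≤ (((c : ℝ) + 1) ^ k + Z) * (n : ℝ) ^ (k - j) := by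
    have h5 : (0 : ℝ) ≤ (n : ℝ) ^ (k - j) := by positivity
    nlinarith
  calc (w k j n : ℝ) * (n : ℝ) ^ j ≤ (((c : ℝ) + 1) ^ k + Z) * (n : ℝ) ^ (k - j) * (n : ℝ) ^ j := by gcongr
    _ = (((c : ℝ) + 1) ^ k + Z) * (n : ℝ) ^ k := by
      rw [mul_assoc, ← pow_add]
      congr 2
      omega

/-- upper bound for all degrees up to `M` -/
private theorem w_up' {c : ℕ} {w : ℕ → ℕ → ℕ → ℕ} (hw : IsW c K w) (M : ℕ) : ∃ Z : ℝ, 0 < Z ∧ ∀ k < M, ∀ j, ∀ n : ℕ, 1 ≤ n → j * c + K ≤ n →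
    (w k j n : ℝ) * (n : ℝ) ^ j ≤ Z * (n : ℝ) ^ k := by
  induction M with
  | zero => exact ⟨1, one_pos, fun k hk => absurd hk (Nat.not_lt_zero _)⟩
  | succ M ih =>
    obtain ⟨Z, hK, ih⟩ := ih
    obtain ⟨Z', hK', h'⟩ := w_up hw M
    refine ⟨Z + Z', by positivity, fun k hk j n hn hj => ?_⟩
    rcases (Nat.lt_succ_iff.1 hk).lt_or_eq with h1 | h1
    · refine (ih k h1 j n hn hj).trans ?_
      gcongr
      linarith
    · subst h1
      refine (h' j n hn hj).trans ?_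
      gcongr
      linarith

/-- NUM-B1: the type `I₀` is determined by the virtual dimension. -/
theorem solveW (M c l : ℕ) (B : ℝ) (hl : l + 1 ≤ M) (hM : 2 ≤ M) (hc : 1 ≤ c)
    (w : ℕ → ℕ → ℕ → ℕ) (hw : IsW c K w) : ∃ C : ℝ, 0 < C ∧ ∃ n₀ : ℕ,
    ∀ n : ℕ, n₀ ≤ n → ∀ e : ℝ, 0 ≤ e → ∀ (N : Kd → ℝ) (I₀ : Finset ℕ), I₀ ⊆ range l →
    (∀ I, I ⊆ range l → I ≠ I₀ →
      |N (.ord M I) + ∑ i ∈ range l, N (.sw i I) - nom M c l I * (n : ℝ) ^ (M + I.card - l)| ≤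
        e * (n : ℝ) ^ (M + I.card - l)) →
    (∀ i < l, ∀ I, I ⊆ range l → |N (.sw i I)| ≤ B * (n : ℝ) ^ (M + I.card - l)) →
    (∀ i < l, ∀ I, I ⊆ range l → (.sw i I) ∉ kds M l → N (.sw i I) = 0) →
    (∀ μ, 1 ≤ μ → μ < M → ∀ I, I ⊆ range l →
      |N (.ord μ I)| ≤ e * (n : ℝ) ^ (2 * M - μ + I.card - l)) →
    |(w (2 * M - 1) l n : ℝ) - ∑ τ ∈ kds M l, N τ * (wtW M w n τ : ℝ)| ≤
      e * (n : ℝ) ^ (2 * M - 1 - l) →
    |N (.ord M I₀) + ∑ i ∈ range l, N (.sw i I₀) - nom M c l I₀ * (n : ℝ) ^ (M + I₀.card - l)| ≤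
        (C * e + C / n) * (n : ℝ) ^ (M + I₀.card - l) := by
  obtain ⟨K₁, hK₁, h₁⟩ := unif hw (M - 1)
  obtain ⟨K₂, hK₂, h₂⟩ := hw.asym (2 * M - 1) l (by omega)
  obtain ⟨K₃, hK₃, h₃⟩ := w_up' hw M
  -- constants
  obtain ⟨ρ, hρ⟩ : ∃ ρ : ℝ, ρ = ((M - 1).factorial : ℝ) := ⟨_, rfl⟩
  have hρ0 : 0 < ρ := by rw [hρ]; positivity
  obtain ⟨U, hU⟩ : ∃ U : ℝ, U = ∑ I ∈ (range l).powerset, |nom M c l I| := ⟨_, rfl⟩
  have hU0 : 0 ≤ U := by rw [hU]; exact sum_nonneg fun _ _ => abs_nonneg _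
  obtain ⟨p, hp⟩ : ∃ p : ℝ, p = ((range l).powerset.card : ℝ) := ⟨_, rfl⟩
  have hp0 : 0 ≤ p := by rw [hp]; positivity
  obtain ⟨Z, hK⟩ : ∃ Z : ℝ, Z = 2 * ρ * (1 + p * K₃ + (M : ℝ) * p * K₃ + K₂ + K₁ * U + (l : ℝ) * |B| + 1) := ⟨_, rfl⟩
  have hK0 : 0 < Z := by rw [hK]; positivity
  refine ⟨Z, hK0, max (l * c + K + 1) (⌈2 * K₁ * ρ⌉₊), fun n hn e he N I₀ hI₀ hT hS hS0 hμ hV => ?_⟩
  have hn1 : 1 ≤ n := by
    have := (le_max_left (l * c + K + 1) (⌈2 * K₁ * ρ⌉₊)).trans hn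
    omega
  have hlc1 : l * c + K + 1 ≤ n := (le_max_left (l * c + K + 1) (⌈2 * K₁ * ρ⌉₊)).trans hn
  have hlc : l * c + K ≤ n := by
    have := (le_max_left (l * c + K + 1) (⌈2 * K₁ * ρ⌉₊)).trans hn
    omega
  have hnK : 2 * K₁ * ρ ≤ n := (Nat.le_ceil _).trans (by exact_mod_cast (le_max_right _ _).trans hn)
  have hnr : (1 : ℝ) ≤ n := by exact_mod_cast hn1
  have hn0 : (0 : ℝ) < n := by linarith
  have hcard : ∀ I ∈ (range l).powerset, I.card ≤ l := fun I hI => by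
    have := card_le_card (mem_powerset.1 hI)
    rwa [card_range] at this
  have hIc : ∀ I ∈ (range l).powerset, I.card * c + K ≤ n := fun I hI =>
    (Nat.add_le_add_right (Nat.mul_le_mul_right c (hcard I hI)) K).trans hlc
  obtain ⟨Q, hQ⟩ : ∃ Q : ℝ, Q = (n : ℝ) ^ (2 * M - 1 - l) := ⟨_, rfl⟩
  have hQ0 : 0 < Q := by rw [hQ]; positivity
  have hQI : ∀ I ∈ (range l).powerset, (n : ℝ) ^ (M - 1 - I.card) * (n : ℝ) ^ (M + I.card - l) = Q := by
    intro I hI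
    have := hcard I hI
    rw [hQ, ← pow_add]
    congr 1
    omega
  -- the sum over the kinds
  obtain ⟨T, hTd⟩ : ∃ T : Finset ℕ → ℝ, ∀ I, T I = N (.ord M I) + ∑ i ∈ range l, N (.sw i I) := ⟨_, fun _ => rfl⟩
  obtain ⟨A, hA⟩ : ∃ A : Finset ℕ → ℝ, ∀ I, A I = (w (M - 1) I.card n : ℝ) := ⟨_, fun _ => rfl⟩
  have hsum : ∑ τ ∈ kds M l, N τ * (wtW M w n τ : ℝ) = ∑ I ∈ (range l).powerset, T I * A I +
      ∑ μ ∈ Ico 1 M, ∑ I ∈ (range l).powerset, N (.ord μ I) * (w (μ - 1) I.card n : ℝ) - ∑ i ∈ range l, N (.sw i ∅) := by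
    rw [sum_kds]
    have e1 : ∑ μ ∈ Icc 1 M, ∑ I ∈ (range l).powerset, N (.ord μ I) * (wtW M w n (.ord μ I) : ℝ) =
        ∑ μ ∈ Ico 1 M, ∑ I ∈ (range l).powerset, N (.ord μ I) * (w (μ - 1) I.card n : ℝ) +
          ∑ I ∈ (range l).powerset, N (.ord M I) * A I := by
      rw [← Finset.Ico_add_one_right_eq_Icc, sum_Ico_succ_top (by omega)]
      congr 1
      refine sum_congr rfl fun I _ => ?_
      rw [hA]
      rfl
    have e2 : ∀ i ∈ range l, (∑ I ∈ (range l).powerset, if I ⊆ Ico (i + 1) l then N (.sw i I) * (wtW M w n (.sw i I) : ℝ) else 0) =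
        ∑ I ∈ (range l).powerset, N (.sw i I) * A I - N (.sw i ∅) := by
      intro i hi
      have hb : 1 ≤ w (M - 1) 0 n := hw.pos (M - 1) 0 n hc (Nat.zero_le _) (by omega)
      have e3 : ∀ I ∈ (range l).powerset, (if I ⊆ Ico (i + 1) l then N (.sw i I) * (wtW M w n (.sw i I) : ℝ) else 0) =
          N (.sw i I) * A I - if I = ∅ then N (.sw i I) else 0 := by
        intro I hI
        by_cases hI0 : I = ∅
        · subst hI0
          rw [if_pos (empty_subset _), if_pos rfl, hA, card_empty]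
          show N (.sw i ∅) * ((w (M - 1) 0 n - 1 : ℕ) : ℝ) = _
          rw [Nat.cast_sub hb]
          push_cast
          ring
        · rw [if_neg hI0, sub_zero]
          split_ifs with h6
          · rw [hA]
            show N (.sw i I) * ((w (M - 1) I.card n - (if I = ∅ then 1 else 0) : ℕ) : ℝ) = _
            rw [if_neg hI0, Nat.sub_zero]
          · rw [hS0 i (mem_range.1 hi) I (mem_powerset.1 hI) fun h7 => h6 (mem_kds.1 h7).2, zero_mul]
      rw [sum_congr rfl e3, sum_sub_distrib, sum_ite_eq' (range l).powerset ∅, if_pos (empty_mem_powerset _)]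
    rw [e1, sum_congr rfl e2, sum_sub_distrib, sum_comm (s := range l)]
    have e4 : ∑ I ∈ (range l).powerset, T I * A I = ∑ I ∈ (range l).powerset, N (.ord M I) * A I +
        ∑ I ∈ (range l).powerset, ∑ i ∈ range l, N (.sw i I) * A I := by
      rw [← sum_add_distrib]
      refine sum_congr rfl fun I _ => ?_
      rw [hTd, add_mul, sum_mul]
    rw [e4]
    ring
  -- the estimates
  have hAup : ∀ I ∈ (range l).powerset, A I * (n : ℝ) ^ I.card ≤ K₃ * (n : ℝ) ^ (M - 1) := fun I hI => by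
    rw [hA]
    exact h₃ (M - 1) (by omega) I.card n hn1 (hIc I hI)
  have hA0 : ∀ I, 0 ≤ A I := fun I => by rw [hA]; positivity
  have hAQ : ∀ I ∈ (range l).powerset, A I * (n : ℝ) ^ (M + I.card - l) ≤ K₃ * Q := by
    intro I hI
    have h4 := hcard I hI
    have h5 : (n : ℝ) ^ (M + I.card - l) = (n : ℝ) ^ I.card * (n : ℝ) ^ (M - l) := by
      rw [← pow_add]
      congr 1
      omega
    have h6 : Q = (n : ℝ) ^ (M - 1) * (n : ℝ) ^ (M - l) := by
      rw [hQ, ← pow_add]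
      congr 1
      omega
    rw [h5, h6, ← mul_assoc, ← mul_assoc]
    exact mul_le_mul_of_nonneg_right (hAup I hI) (by positivity)
  obtain ⟨x, hx⟩ : ∃ x : Finset ℕ → ℝ, ∀ I, x I = T I - nom M c l I * (n : ℝ) ^ (M + I.card - l) := ⟨_, fun _ => rfl⟩
  have hx1 : ∀ I ∈ (range l).powerset.erase I₀, |x I * A I| ≤ e * (K₃ * Q) := by
    intro I hI
    rw [mem_erase] at hI
    have h4 := hT I (mem_powerset.1 hI.2) hI.1
    rw [← hTd, ← hx] at h4
    rw [abs_mul, abs_of_nonneg (hA0 I)]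
    calc |x I| * A I ≤ e * (n : ℝ) ^ (M + I.card - l) * A I := mul_le_mul_of_nonneg_right h4 (hA0 I)
      _ = e * (A I * (n : ℝ) ^ (M + I.card - l)) := by ring
      _ ≤ e * (K₃ * Q) := mul_le_mul_of_nonneg_left (hAQ I hI.2) he
  have hE1 : |∑ I ∈ (range l).powerset.erase I₀, x I * A I| ≤ p * K₃ * e * Q := by
    refine (abs_sum_le_sum_abs _ _).trans ((sum_le_sum hx1).trans ?_)
    rw [sum_const, nsmul_eq_mul]
    have h4 : (((range l).powerset.erase I₀).card : ℝ) ≤ p := by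
      rw [hp]
      exact_mod_cast card_le_card (erase_subset _ _)
    calc (((range l).powerset.erase I₀).card : ℝ) * (e * (K₃ * Q)) ≤ p * (e * (K₃ * Q)) :=
          mul_le_mul_of_nonneg_right h4 (by positivity)
      _ = p * K₃ * e * Q := by ring
  have hE2 : |∑ μ ∈ Ico 1 M, ∑ I ∈ (range l).powerset, N (.ord μ I) * (w (μ - 1) I.card n : ℝ)| ≤ (M : ℝ) * p * K₃ * e * Q := by
    have h4 : ∀ μ ∈ Ico 1 M, |∑ I ∈ (range l).powerset, N (.ord μ I) * (w (μ - 1) I.card n : ℝ)| ≤ p * (e * (K₃ * Q)) := by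
      intro μ hμM
      rw [mem_Ico] at hμM
      have h5 : ∀ I ∈ (range l).powerset, |N (.ord μ I) * (w (μ - 1) I.card n : ℝ)| ≤ e * (K₃ * Q) := by
        intro I hI
        have h6 := hcard I hI
        rw [abs_mul, Nat.abs_cast]
        have h7 : (n : ℝ) ^ (2 * M - μ + I.card - l) = (n : ℝ) ^ I.card * (n : ℝ) ^ (2 * M - μ - l) := by
          rw [← pow_add]
          congr 1
          omega
        have h8 : Q = (n : ℝ) ^ (μ - 1) * (n : ℝ) ^ (2 * M - μ - l) := by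
          rw [hQ, ← pow_add]
          congr 1
          omega
        calc |N (.ord μ I)| * (w (μ - 1) I.card n : ℝ) ≤ e * (n : ℝ) ^ (2 * M - μ + I.card - l) * (w (μ - 1) I.card n : ℝ) :=
              mul_le_mul_of_nonneg_right (hμ μ hμM.1 hμM.2 I (mem_powerset.1 hI)) (by positivity)
          _ = e * (((w (μ - 1) I.card n : ℝ) * (n : ℝ) ^ I.card) * (n : ℝ) ^ (2 * M - μ - l)) := by rw [h7]; ring
          _ ≤ e * ((K₃ * (n : ℝ) ^ (μ - 1)) * (n : ℝ) ^ (2 * M - μ - l)) := by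
              refine mul_le_mul_of_nonneg_left (mul_le_mul_of_nonneg_right ?_ (by positivity)) he
              exact h₃ (μ - 1) (by omega) I.card n hn1 (hIc I hI)
          _ = e * (K₃ * Q) := by rw [h8]; ring
      refine (abs_sum_le_sum_abs _ _).trans ((sum_le_sum h5).trans ?_)
      rw [sum_const, nsmul_eq_mul, hp]
    refine (abs_sum_le_sum_abs _ _).trans ((sum_le_sum h4).trans ?_)
    rw [sum_const, nsmul_eq_mul, Nat.card_Ico]
    have h5 : ((M - 1 : ℕ) : ℝ) ≤ M := by exact_mod_cast Nat.sub_le M 1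
    calc ((M - 1 : ℕ) : ℝ) * (p * (e * (K₃ * Q))) ≤ (M : ℝ) * (p * (e * (K₃ * Q))) :=
          mul_le_mul_of_nonneg_right h5 (by positivity)
      _ = (M : ℝ) * p * K₃ * e * Q := by ring
  have hE3 : |∑ i ∈ range l, N (.sw i ∅)| ≤ (l : ℝ) * |B| / n * Q := by
    have h4 : ∀ i ∈ range l, |N (.sw i ∅)| ≤ |B| / n * Q := by
      intro i hi
      have h5 := hS i (mem_range.1 hi) ∅ (empty_subset _)
      rw [card_empty, add_zero] at h5
      have h6 : Q = (n : ℝ) ^ (M - l) * (n : ℝ) ^ (M - 1) := by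
        rw [hQ, ← pow_add]
        congr 1
        omega
      have h7 : (n : ℝ) ≤ (n : ℝ) ^ (M - 1) := le_self_pow₀ hnr (by omega)
      calc |N (.sw i ∅)| ≤ B * (n : ℝ) ^ (M - l) := h5
        _ ≤ |B| * (n : ℝ) ^ (M - l) := mul_le_mul_of_nonneg_right (le_abs_self B) (by positivity)
        _ = |B| / n * ((n : ℝ) ^ (M - l) * n) := by field_simp
        _ ≤ |B| / n * Q := by
          rw [h6]
          gcongr
    refine (abs_sum_le_sum_abs _ _).trans ((sum_le_sum h4).trans ?_)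
    rw [sum_const, nsmul_eq_mul, card_range]
    exact le_of_eq (by ring)
  -- the nominal sum
  have hE4 : |∑ I ∈ (range l).powerset, nom M c l I * (n : ℝ) ^ (M + I.card - l) * A I - (c : ℝ) ^ l / ((2 * M - 1 - l).factorial : ℝ) * Q| ≤
      K₁ * U / n * Q := by
    rw [← vand M c l hl, sum_mul, ← sum_sub_distrib]
    have h4 : ∀ I ∈ (range l).powerset, |nom M c l I * (n : ℝ) ^ (M + I.card - l) * A I -
        nom M c l I * ((c : ℝ) ^ I.card / ((M - 1 - I.card).factorial : ℝ)) * Q| ≤ |nom M c l I| * (K₁ / n * Q) := by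
      intro I hI
      have h5 := h₁ I.card (by have := hcard I hI; omega) n hn1 (hIc I hI)
      rw [← hQI I hI, hA, show nom M c l I * (n : ℝ) ^ (M + I.card - l) * (w (M - 1) I.card n : ℝ) -
        nom M c l I * ((c : ℝ) ^ I.card / ((M - 1 - I.card).factorial : ℝ)) * ((n : ℝ) ^ (M - 1 - I.card) * (n : ℝ) ^ (M + I.card - l)) =
        nom M c l I * (((w (M - 1) I.card n : ℝ) - (c : ℝ) ^ I.card / ((M - 1 - I.card).factorial : ℝ) * (n : ℝ) ^ (M - 1 - I.card)) *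
          (n : ℝ) ^ (M + I.card - l)) by ring, abs_mul, abs_mul, abs_of_nonneg (by positivity : (0 : ℝ) ≤ (n : ℝ) ^ (M + I.card - l)), ← mul_assoc (K₁ / n)]
      exact mul_le_mul_of_nonneg_left (mul_le_mul_of_nonneg_right h5 (by positivity)) (abs_nonneg _)
    refine (abs_sum_le_sum_abs _ _).trans ((sum_le_sum h4).trans ?_)
    rw [← sum_mul, ← hU]
    exact le_of_eq (by ring)
  have hE5 := h₂ n hn1 hlc
  rw [← hQ] at hE5 hV
  have hI₀m : I₀ ∈ (range l).powerset := mem_powerset.2 hI₀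
  -- the identity
  have hid : x I₀ * A I₀ = -((w (2 * M - 1) l n : ℝ) - ∑ τ ∈ kds M l, N τ * (wtW M w n τ : ℝ)) +
      ((w (2 * M - 1) l n : ℝ) - (c : ℝ) ^ l / ((2 * M - 1 - l).factorial : ℝ) * Q) -
      (∑ I ∈ (range l).powerset, nom M c l I * (n : ℝ) ^ (M + I.card - l) * A I - (c : ℝ) ^ l / ((2 * M - 1 - l).factorial : ℝ) * Q) -
      ∑ I ∈ (range l).powerset.erase I₀, x I * A I + ∑ i ∈ range l, N (.sw i ∅) -
      ∑ μ ∈ Ico 1 M, ∑ I ∈ (range l).powerset, N (.ord μ I) * (w (μ - 1) I.card n : ℝ) := by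
    have h4 : ∑ I ∈ (range l).powerset, T I * A I = x I₀ * A I₀ + ∑ I ∈ (range l).powerset.erase I₀, x I * A I +
        ∑ I ∈ (range l).powerset, nom M c l I * (n : ℝ) ^ (M + I.card - l) * A I := by
      rw [add_sum_erase _ (fun I => x I * A I) hI₀m, ← sum_add_distrib]
      refine sum_congr rfl fun I _ => ?_
      rw [hx]
      ring
    rw [hsum, h4]
    ring
  have habs : |x I₀ * A I₀| ≤ ((1 + p * K₃ + (M : ℝ) * p * K₃) * e + (K₂ + K₁ * U + (l : ℝ) * |B|) / n) * Q := by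
    rw [hid]
    have t1 := abs_le.1 hV
    have t2 := abs_le.1 hE5
    have t3 := abs_le.1 hE4
    have t4 := abs_le.1 hE1
    have t5 := abs_le.1 hE3
    have t6 := abs_le.1 hE2
    have t7 : ((1 + p * K₃ + (M : ℝ) * p * K₃) * e + (K₂ + K₁ * U + (l : ℝ) * |B|) / n) * Q =
        e * Q + p * K₃ * e * Q + (M : ℝ) * p * K₃ * e * Q + K₂ / n * Q + K₁ * U / n * Q + (l : ℝ) * |B| / n * Q := by ring
    rw [t7, abs_le]
    constructor <;> linarith [t1.1, t1.2, t2.1, t2.2, t3.1, t3.2, t4.1, t4.2, t5.1, t5.2, t6.1, t6.2]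
  -- the lower bound
  have hlow : (n : ℝ) ^ (M - 1 - I₀.card) ≤ 2 * ρ * A I₀ := by
    have h4 := (abs_le.1 (h₁ I₀.card (by have := hcard I₀ hI₀m; omega) n hn1 (hIc I₀ hI₀m))).1
    rw [← hA] at h4
    have h5 : 1 / ρ ≤ (c : ℝ) ^ I₀.card / ((M - 1 - I₀.card).factorial : ℝ) := by
      have h6 : (1 : ℝ) ≤ (c : ℝ) ^ I₀.card := one_le_pow₀ (by exact_mod_cast hc)
      have h7 : ((M - 1 - I₀.card).factorial : ℝ) ≤ ρ := by
        rw [hρ]
        exact_mod_cast Nat.factorial_le (by omega)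
      gcongr
    have h6 : K₁ / n ≤ 1 / (2 * ρ) := by
      rw [div_le_div_iff₀ hn0 (by positivity)]
      linarith
    have h7 : (0 : ℝ) < (n : ℝ) ^ (M - 1 - I₀.card) := by positivity
    have h8 : (1 / ρ) * (n : ℝ) ^ (M - 1 - I₀.card) ≤ (c : ℝ) ^ I₀.card / ((M - 1 - I₀.card).factorial : ℝ) * (n : ℝ) ^ (M - 1 - I₀.card) :=
      mul_le_mul_of_nonneg_right h5 h7.le
    have h9 : K₁ / n * (n : ℝ) ^ (M - 1 - I₀.card) ≤ 1 / (2 * ρ) * (n : ℝ) ^ (M - 1 - I₀.card) :=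
      mul_le_mul_of_nonneg_right h6 h7.le
    have h10 : 1 / (2 * ρ) * (n : ℝ) ^ (M - 1 - I₀.card) ≤ A I₀ := by
      have h11 : (1 / ρ) * (n : ℝ) ^ (M - 1 - I₀.card) = 1 / (2 * ρ) * (n : ℝ) ^ (M - 1 - I₀.card) + 1 / (2 * ρ) * (n : ℝ) ^ (M - 1 - I₀.card) := by
        field_simp
        ring
      linarith
    calc (n : ℝ) ^ (M - 1 - I₀.card) = 2 * ρ * (1 / (2 * ρ) * (n : ℝ) ^ (M - 1 - I₀.card)) := by field_simp
      _ ≤ 2 * ρ * A I₀ := mul_le_mul_of_nonneg_left h10 (by positivity)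
  rw [← hTd, ← hx]
  have h7 : (0 : ℝ) < (n : ℝ) ^ (M - 1 - I₀.card) := by positivity
  have h8 : |x I₀| * (n : ℝ) ^ (M - 1 - I₀.card) ≤ (Z * e + Z / n) * (n : ℝ) ^ (M + I₀.card - l) * (n : ℝ) ^ (M - 1 - I₀.card) := by
    calc |x I₀| * (n : ℝ) ^ (M - 1 - I₀.card) ≤ |x I₀| * (2 * ρ * A I₀) := mul_le_mul_of_nonneg_left hlow (abs_nonneg _)
      _ = 2 * ρ * |x I₀ * A I₀| := by rw [abs_mul, abs_of_nonneg (hA0 I₀)]; ring
      _ ≤ 2 * ρ * (((1 + p * K₃ + (M : ℝ) * p * K₃) * e + (K₂ + K₁ * U + (l : ℝ) * |B|) / n) * Q) := mul_le_mul_of_nonneg_left habs (by positivity)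
      _ ≤ (Z * e + Z / n) * Q := by
          have a1 : 2 * ρ * (1 + p * K₃ + (M : ℝ) * p * K₃) ≤ Z := by
            rw [hK]
            refine mul_le_mul_of_nonneg_left ?_ (by positivity)
            have : 0 ≤ K₂ + K₁ * U + (l : ℝ) * |B| + 1 := by positivity
            linarith
          have a2 : 2 * ρ * (K₂ + K₁ * U + (l : ℝ) * |B|) ≤ Z := by
            rw [hK]
            refine mul_le_mul_of_nonneg_left ?_ (by positivity)
            have : 0 ≤ 1 + p * K₃ + (M : ℝ) * p * K₃ + 1 := by positivity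
            linarith
          rw [show 2 * ρ * (((1 + p * K₃ + (M : ℝ) * p * K₃) * e + (K₂ + K₁ * U + (l : ℝ) * |B|) / n) * Q) =
            (2 * ρ * (1 + p * K₃ + (M : ℝ) * p * K₃) * e + 2 * ρ * (K₂ + K₁ * U + (l : ℝ) * |B|) / n) * Q by ring]
          gcongr
      _ = _ := by rw [← hQI I₀ hI₀m]; ring
  exact le_of_mul_le_mul_right h8 h7

end Pool.Agent.V8
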