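import Pool.Agent.V7.Top.Vas
import Pool.Agent.V8.Num.Solve

/-!
# V8: the virtual dimension of the points which are not of the top type
-/

set_option autoImplicit false

namespace Pool.Agent.V8

open Finset Pool.Agent.H51.TB Pool.Agent.V7 Pool.Agent.V7.ST

variable {K : ℕ}

/-- W7 -/
theorem vasW (M c k : ℕ) (hM : 2 ≤ M) (hk : k + 1 = M) (hc : 1 ≤ c)
    (w : ℕ → ℕ → ℕ → ℕ) (hw : IsW c K w) : VASW M c k w := by
  classical
  have hC : 0 < (2 * M - 1).choose M := Nat.choose_pos (by omega)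
  have hC' : (0 : ℝ) < (2 * M - 1).choose M := by exact_mod_cast hC
  have hc' : (1 : ℝ) ≤ c := by exact_mod_cast hc
  have hck : (1 : ℝ) ≤ (c : ℝ) ^ k := one_le_pow₀ hc'
  obtain ⟨L, hL, n₀, hsol⟩ := solveW M c k (3 * (c : ℝ) ^ k) (by omega) hM hc w hw
  refine ⟨(c : ℝ) ^ k * L, by positivity, n₀ + k * c + K, fun n hn e he he1 N hN hN0 => ?_⟩
  set τ₀ := Kd.ord M (range k) with hτ₀
  set v : ℝ := (vNW M w k n N : ℝ) with hv
  have hwt : (wtW M w n τ₀ : ℝ) = (c : ℝ) ^ k := by
    have h1 : wtW M w n τ₀ = c ^ k := by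
      show w (M - 1) (range k).card n = c ^ k
      rw [card_range, show M - 1 = k by omega, hw.self k n (by omega)]
    rw [h1]
    push_cast
    rfl
  have hmem : τ₀ ∈ kds M k := mem_kds.2 ⟨by omega, le_rfl, Subset.refl _⟩
  let N' : Kd → ℝ := fun τ => (N τ : ℝ) + if τ = τ₀ then v / (c : ℝ) ^ k else 0
  have hN'sw : ∀ i I, N' (.sw i I) = N (.sw i I) := by
    intro i I
    simp [N', hτ₀]
  have hN'ord : ∀ μ I, (μ ≠ M ∨ I ≠ range k) → N' (.ord μ I) = N (.ord μ I) := by
    intro μ I h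
    simp only [N']
    rw [if_neg, add_zero]
    rw [hτ₀, Kd.ord.injEq]
    rintro ⟨h1, h2⟩
    rcases h with h | h
    · exact h h1
    · exact h h2
  have hN'0 : N' τ₀ = v / (c : ℝ) ^ k := by
    simp only [N', if_true]
    rw [hN0, Nat.cast_zero, zero_add]
  have hsw0 : ∀ i, ∀ I, (.sw i I) ∉ kds M k → N (.sw i I) = 0 := by
    intro i I h
    by_contra h1
    exact h (hN.ok _ h1)
  have key := hsol n (by omega) e he N' (range k) (Subset.refl _) ?_ ?_ ?_ ?_ ?_
  · rw [hN'0] at key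
    have h1 : ∑ i ∈ range k, N' (.sw i (range k)) = 0 := by
      refine sum_eq_zero fun i hi => ?_
      rw [hN'sw, hsw0 i (range k), Nat.cast_zero]
      intro h
      have h2 := (mem_kds.1 h).2 hi
      have := (mem_Ico.1 h2).1
      omega
    rw [h1, add_zero, card_range, Nat.add_sub_cancel] at key
    have h2 : nom M c k (range k) = 1 / (((2 * M - 1).choose M : ℝ) * (M.factorial : ℝ)) := by
      unfold nom
      rw [card_range, Nat.sub_self, pow_zero, Nat.add_sub_cancel]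
    rw [h2] at key
    have h3 : v - (c : ℝ) ^ k * ((n : ℝ) ^ M / (((2 * M - 1).choose M : ℝ) * (M.factorial : ℝ))) =
        (c : ℝ) ^ k * (v / (c : ℝ) ^ k -
          1 / (((2 * M - 1).choose M : ℝ) * (M.factorial : ℝ)) * (n : ℝ) ^ M) := by
      have : (c : ℝ) ^ k ≠ 0 := by positivity
      field_simp
    rw [h3, abs_mul, abs_of_pos (by positivity)]
    calc (c : ℝ) ^ k * |v / (c : ℝ) ^ k -
          1 / (((2 * M - 1).choose M : ℝ) * (M.factorial : ℝ)) * (n : ℝ) ^ M| ≤
        (c : ℝ) ^ k * ((L * e + L / n) * (n : ℝ) ^ M) :=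
          mul_le_mul_of_nonneg_left key (by positivity)
      _ = ((c : ℝ) ^ k * L * e + (c : ℝ) ^ k * L / n) * (n : ℝ) ^ M := by ring
  · intro I hI hI'
    have h1 := hN.big I hI hI'
    unfold tot at h1
    push_cast at h1
    rw [hN'ord M I (Or.inr hI'), sum_congr rfl fun i _ => hN'sw i I]
    exact h1
  · intro i hi I hI
    rw [hN'sw, abs_of_nonneg (by positivity)]
    refine (hN.swp i hi I hI).trans (mul_le_mul_of_nonneg_right ?_ (by positivity))
    have h1 := nom_le (M := M) (k := k) hc hC I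
    have h0 : 0 ≤ nom M c k I := by
      unfold nom
      positivity
    have h2 : 2 * ((2 * M - 1).choose M : ℝ) / c * nom M c k I ≤ 2 * (c : ℝ) ^ k := by
      have h3 : 2 * ((2 * M - 1).choose M : ℝ) / c ≤ 2 * ((2 * M - 1).choose M : ℝ) := by
        apply div_le_self (by positivity) hc'
      calc 2 * ((2 * M - 1).choose M : ℝ) / c * nom M c k I ≤
          2 * ((2 * M - 1).choose M : ℝ) * nom M c k I := mul_le_mul_of_nonneg_right h3 h0
        _ ≤ 2 * ((2 * M - 1).choose M : ℝ) * ((c : ℝ) ^ k / ((2 * M - 1).choose M : ℝ)) :=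
          mul_le_mul_of_nonneg_left h1 (by positivity)
        _ = 2 * (c : ℝ) ^ k := by
          field_simp
    linarith
  · intro i _ I _ h
    rw [hN'sw, hsw0 i I h, Nat.cast_zero]
  · intro μ h1 h2 I hI
    rw [hN'ord μ I (Or.inl h2.ne), abs_of_nonneg (by positivity)]
    exact hN.sml μ h1 h2 I hI
  · have h1 : ∑ τ ∈ kds M k, N' τ * (wtW M w n τ : ℝ) =
        ∑ τ ∈ kds M k, (N τ : ℝ) * (wtW M w n τ : ℝ) + v := by
      have h2 : ∀ τ ∈ kds M k, N' τ * (wtW M w n τ : ℝ) = (N τ : ℝ) * (wtW M w n τ : ℝ) +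
          if τ = τ₀ then v / (c : ℝ) ^ k * (wtW M w n τ : ℝ) else 0 := by
        intro τ _
        simp only [N']
        split_ifs
        · ring
        · ring
      rw [sum_congr rfl h2, sum_add_distrib, sum_ite_eq' (kds M k) τ₀, if_pos hmem, hwt,
        div_mul_cancel₀ v (by positivity)]
    have h3 : v = (w (2 * M - 1) k n : ℝ) - ∑ τ ∈ kds M k, (N τ : ℝ) * (wtW M w n τ : ℝ) := by
      rw [hv]
      unfold vNW
      push_cast
      rfl
    rw [h1, show (w (2 * M - 1) k n : ℝ) -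
      (∑ τ ∈ kds M k, (N τ : ℝ) * (wtW M w n τ : ℝ) + v) = 0 by rw [h3]; ring, abs_zero]
    positivity

end Pool.Agent.V8
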