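import Pool.Agent.V7.Num.Ms
import Pool.Agent.V8.Num.Step

/-!
# V8, NUM: the numbers of one step, for multisets (general weights)
-/

set_option autoImplicit false

namespace Pool.Agent.V8

open Finset Module Pool.Agent.H51.TB Pool.Agent.V7 Pool.Agent.V7.ST Topology

variable {K : ℕ}

/-- W2: the virtual dimension in terms of the numbers of the kinds. -/
theorem vdW_eq_vNW (M : ℕ) (w : ℕ → ℕ → ℕ → ℕ) (j n : ℕ) (s : Multiset Kd)
    (hs : ∀ τ ∈ s, τ ∈ kds M j) : vdW M w j n s = vNW M w j n fun τ => s.count τ := by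
  unfold vdW vNW
  congr 1
  have h1 : (s.map (wtW M w n)).sum = ∑ τ ∈ s.toFinset, s.count τ * wtW M w n τ :=
    Finset.sum_multiset_map_count s (wtW M w n)
  rw [h1]
  push_cast
  refine Finset.sum_subset (fun τ hτ => hs τ (Multiset.mem_toFinset.1 hτ)) fun τ _ hτ => ?_
  rw [Multiset.mem_toFinset] at hτ
  rw [Multiset.count_eq_zero_of_notMem hτ, Nat.cast_zero, zero_mul]

/-- W5: the numbers of one step, for multisets (hypothesis NUM of the step). -/
theorem num_msW (M c j : ℕ) (hj : j + 2 ≤ M) (hc : 2 * (2 * M - 1).choose M * M < c)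
    (w : ℕ → ℕ → ℕ → ℕ) (hw : IsW c K w) (e' : ℝ)
    (he' : 0 < e') : ∃ e₀ : ℝ, 0 < e₀ ∧ ∀ e : ℝ, 0 < e → e ≤ e₀ → ∀ X : ℕ, ∃ n₁ : ℕ, ∀ n : ℕ,
    n₁ ≤ n → ∀ s : Multiset Kd, Cls0 M c j n (e + 1 / (n : ℝ)) (fun τ => s.count τ) →
    -(w (M - 1) j n : ℤ) ≤ vdW M w j n s → vdW M w j n s < (X + 1) * w (M - 1) j n →
    ∀ x, x ≤ X → ∃ sL sO : Multiset Kd,
      s = sL + sO + Multiset.replicate (2 * w (M - 1) j (n - c)) (Kd.ord M ∅) ∧
      Cls0 M c j (n - c) (e + 1 / ((n - c : ℕ) : ℝ)) (fun τ => sL.count τ) ∧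
      (x : ℤ) * w (M - 1) j (n - c) ≤ vdW M w j (n - c) sL ∧
      vdW M w j (n - c) sL < (x + 1) * w (M - 1) j (n - c) ∧
      ∀ y, y ≤ 2 * w (M - 1) j (n - c) → Cls M c (j + 1) n e' (fun τ =>
        (sL.map (Kd.add j) + (sO + Multiset.replicate (2 * w (M - 1) j (n - c) - y) (Kd.ord M ∅)) +
          Multiset.replicate y (Kd.sw j ∅)).count τ) := by
  obtain ⟨e₀, he₀, h⟩ := num_stepW M c j hj hc w hw e' he'
  refine ⟨e₀, he₀, fun e he hee X => ?_⟩
  obtain ⟨n₀, h⟩ := h e he hee (X + 1)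
  refine ⟨n₀ + c, fun n hn s hs hv1 hv2 x hx => ?_⟩
  obtain ⟨n, rfl⟩ : ∃ n', n = n' + c := ⟨n - c, by omega⟩
  rw [Nat.add_sub_cancel]
  have hsk : ∀ τ ∈ s, τ ∈ kds M j := fun τ hτ => hs.ok τ (Multiset.count_pos.2 hτ).ne'
  rw [vdW_eq_vNW M w j (n + c) s hsk] at hv1 hv2
  have hb0 : (0 : ℤ) ≤ w (M - 1) j (n + c) := Int.natCast_nonneg _
  have habs : |vNW M w j (n + c) fun τ => s.count τ| ≤
      ((X + 1 : ℕ) : ℤ) * (w (M - 1) j (n + c) : ℤ) := by
    rw [abs_le]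
    have h1 : (0 : ℤ) ≤ (X : ℤ) * w (M - 1) j (n + c) := mul_nonneg (Int.natCast_nonneg _) hb0
    push_cast
    constructor
    · linarith
    · exact hv2.le
  obtain ⟨N', hN', hcls, hx1, hx2, hy⟩ := h n (by omega) (fun τ => s.count τ) hs habs x (by omega)
  obtain ⟨sL, hsL⟩ := exists_msN (kds M j) N' hcls.ok
  have hLk : ∀ τ ∈ sL, τ ∈ kds M j := fun τ hτ =>
    hcls.ok τ (by rw [← hsL]; exact (Multiset.count_pos.2 hτ).ne')
  have hfun : (fun τ => sL.count τ) = N' := funext hsL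
  set b := 2 * w (M - 1) j n with hb
  have hle : sL + Multiset.replicate b (Kd.ord M ∅) ≤ s := by
    rw [Multiset.le_iff_count]
    intro τ
    rw [Multiset.count_add, Multiset.count_replicate, hsL]
    split_ifs with h1
    · rw [← h1]
      have := (hy b le_rfl).1
      omega
    · exact hN' τ
  obtain ⟨sO, hsO⟩ := Multiset.le_iff_exists_add.1 hle
  have hsO' : s = sL + sO + Multiset.replicate b (Kd.ord M ∅) := by
    rw [hsO]
    exact add_right_comm _ _ _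
  have hOk : ∀ τ ∈ sO, τ ∈ kds M j := fun τ hτ =>
    hsk τ (by rw [hsO]; exact Multiset.mem_add.2 (Or.inr hτ))
  refine ⟨sL, sO, hsO', ?_, ?_, ?_, fun y hyb => ?_⟩
  · rw [hfun]
    exact hcls
  · rw [vdW_eq_vNW M w j n sL hLk, hfun]
    exact hx1
  · rw [vdW_eq_vNW M w j n sL hLk, hfun]
    exact hx2
  · have h1 := (hy y hyb).2
    have h2 : (fun τ => (sL.map (Kd.add j) +
        (sO + Multiset.replicate (b - y) (Kd.ord M ∅)) +
          Multiset.replicate y (Kd.sw j ∅)).count τ) = resN M j (fun τ => s.count τ) N' y := by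
      funext τ
      rw [count_resN M j sL sO b y hyb hLk hOk τ, hfun, ← hsO']
    rw [h2]
    exact h1

end Pool.Agent.V8
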