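import Pool.Agent.V8.Defs
import Pool.Agent.V7.ST.Bb

/-!
# V8: the virtual dimension of the residual system
-/

set_option autoImplicit false

namespace Pool.Agent.V8

open Finset Pool.Agent.H51.TB Pool.Agent.V7 Pool.Agent.V7.ST

variable {K : ℕ}

theorem IsW.sub {c : ℕ} {w : ℕ → ℕ → ℕ → ℕ} (hw : IsW c K w) (k : ℕ) {j n : ℕ}
    (h : (j + 1) * c + K ≤ n) : w k j n = w k j (n - c) + w k (j + 1) n := by
  have h1 : (j + 1) * c = j * c + c := by ring
  have h2 := hw.add k j (n - c) (by omega)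
  have h3 : n - c + c = n := Nat.sub_add_cancel (by omega)
  rwa [h3] at h2

theorem wtW_add {M c j n : ℕ} (hc : 1 ≤ c) {w : ℕ → ℕ → ℕ → ℕ} (hw : IsW c K w)
    (h : (j + 1) * c + K ≤ n) (hn : c + K < n) {τ : Kd} (hτ : τ.Ok M j) :
    wtW M w n (τ.add j) + wtW M w (n - c) τ = wtW M w n τ := by
  have hoff := Off.of_ok hτ
  rcases τ with ⟨μ, I⟩ | ⟨i, I⟩
  · have h1 : I.card ≤ j := card_le_of_ok hτ
    have h2 := hw.sub (μ - 1) (j := I.card) (n := n)
      ((Nat.add_le_add_right (Nat.mul_le_mul_right c (Nat.succ_le_succ h1)) K).trans h)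
    show w (μ - 1) (insert j I).card n + w (μ - 1) I.card (n - c) = w (μ - 1) I.card n
    rw [card_insert_of_notMem hoff]
    omega
  · have h1 : I.card + 1 ≤ j := card_le_of_ok' hτ
    have h2 := hw.sub (M - 1) (j := I.card) (n := n)
      ((Nat.add_le_add_right (Nat.mul_le_mul_right c (Nat.succ_le_succ
        (by omega : I.card ≤ j))) K).trans h)
    show w (M - 1) (insert j I).card n - (if insert j I = ∅ then 1 else 0) +
      (w (M - 1) I.card (n - c) - if I = ∅ then 1 else 0) =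
      w (M - 1) I.card n - if I = ∅ then 1 else 0
    rw [card_insert_of_notMem hoff, if_neg (insert_ne_empty j I)]
    split_ifs with h3
    · have h4 : 1 ≤ w (M - 1) I.card (n - c) := by
        subst h3
        refine hw.pos (M - 1) _ (n - c) hc (Nat.zero_le _) ?_
        rw [card_empty, zero_mul]
        omega
      omega
    · omega

theorem sum_wtW_add {M c j n : ℕ} (hc : 1 ≤ c) {w : ℕ → ℕ → ℕ → ℕ} (hw : IsW c K w)
    (hn' : (j + 1) * c + K ≤ n) (hn : c + K < n) (s : Multiset Kd) (h : ∀ τ ∈ s, τ.Ok M j) :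
    ((s.map (Kd.add j)).map (wtW M w n)).sum + (s.map (wtW M w (n - c))).sum =
      (s.map (wtW M w n)).sum := by
  induction s using Multiset.induction_on with
  | empty => rfl
  | cons k s ih =>
    have h1 := ih fun k' hk' => h k' (Multiset.mem_cons_of_mem hk')
    have h2 := wtW_add hc hw hn' hn (h k (Multiset.mem_cons_self k s))
    rw [Multiset.map_cons, Multiset.map_cons, Multiset.map_cons, Multiset.map_cons,
      Multiset.sum_cons, Multiset.sum_cons, Multiset.sum_cons]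
    omega

theorem wtW_sj {M c j n : ℕ} (hc : 1 ≤ c) {w : ℕ → ℕ → ℕ → ℕ} (hw : IsW c K w) (hn : K < n) :
    wtW M w n (.sw j ∅) + 1 = wtW M w n (.ord M ∅) := by
  show w (M - 1) (∅ : Finset ℕ).card n - (if (∅ : Finset ℕ) = ∅ then 1 else 0) + 1 =
    w (M - 1) (∅ : Finset ℕ).card n
  rw [if_pos rfl]
  have h : 1 ≤ w (M - 1) (∅ : Finset ℕ).card n := by
    refine hw.pos (M - 1) _ n hc (Nat.zero_le _) ?_
    rw [card_empty, zero_mul]
    omega
  omega

/-- W6, as V7 `vd_res` (hypothesis VR of step_abs). -/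
theorem vd_resW (M c j n : ℕ) (hM : 1 ≤ M) (hc : 1 ≤ c) (w : ℕ → ℕ → ℕ → ℕ) (hw : IsW c K w)
    (h : (j + 2) * c + K ≤ n) (hn : c + K < n) (sL sO : Multiset Kd)
    (y : ℕ) (hL : ∀ τ ∈ sL, τ ∈ kds M j) (hO : ∀ τ ∈ sO, τ ∈ kds M j) :
    vdW M w (j + 1) n (sL.map (Kd.add j) + sO + Multiset.replicate y (Kd.sw j ∅)) =
      vdW M w j n (sL + sO + Multiset.replicate y (Kd.ord M ∅)) - vdW M w j (n - c) sL + y := by
  have h0 : (j + 1) * c + K ≤ n :=
    (Nat.add_le_add_right (Nat.mul_le_mul_right c (by omega)) K).trans h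
  have h1 := hw.sub (2 * M - 1) (j := j) (n := n) h0
  have h2 := sum_wtW_add (M := M) hc hw h0 hn sL fun τ hτ => mem_kds.1 (hL τ hτ)
  have h3 := wtW_sj (M := M) (j := j) hc hw (by omega : K < n)
  have h4 : y * wtW M w n (.sw j ∅) + y = y * wtW M w n (.ord M ∅) := by
    rw [← h3]
    ring
  unfold vdW
  simp only [Multiset.map_add, Multiset.sum_add, Multiset.map_replicate, Multiset.sum_replicate,
    smul_eq_mul]
  rw [h1, ← h2, ← h4]
  push_cast
  ring

end Pool.Agent.V8
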